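import Pool.Agent.R41.TriTie

/-!
MP_5b3c48, Q1: the conjectured uniqueness of the extremal graph fails for `k = 4`: for all odd
`n ≥ 7` the graph `H⁺(n, 2, t₄)` is not the unique extremal graph for `ex(n, K₃, C₄³)`, nor for
`ex(n, K₃, P₄³)`.
-/

set_option autoImplicit false

namespace Pool.Agent.Results.MP_5b3c48_co.NotUnique

open SimpleGraph Pool.Agent.R41.TT

/-- The edge blow-up `H³` of `H`: every edge `e = uv` of `H` is replaced by a triangle `u v w_e`;
the new vertex `w_e` is the edge `e` itself. -/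
def edgeBlowup {W : Type} (H : SimpleGraph W) : SimpleGraph (W ⊕ H.edgeSet) where
  Adj a b := match a, b with
    | .inl u, .inl v => H.Adj u v
    | .inl u, .inr e => u ∈ e.1
    | .inr e, .inl u => u ∈ e.1
    | .inr _, .inr _ => False
  symm := ⟨fun a b h => by
    rcases a with a | a <;> rcases b with b | b
    · exact SimpleGraph.Adj.symm h
    · exact h
    · exact h
    · exact h⟩
  loopless := ⟨fun a h => by
    rcases a with a | a
    · exact H.loopless.irrefl a h
    · exact h⟩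

/-- The number of triangles (copies of `K₃`) of `G`. -/
noncomputable def triangles {V : Type} (G : SimpleGraph V) : ℕ :=
  {T : Finset V | G.IsNClique 3 T}.ncard

/-- `G` is an extremal graph for `ex(n, K₃, F)`, `n` the number of vertices of `G`: it does not
contain `F` as a subgraph and has the largest number of triangles among such graphs on the same
vertex set. -/
def IsExtremal {W V : Type} (F : SimpleGraph W) (G : SimpleGraph V) : Prop :=
  F.Free G ∧ ∀ G' : SimpleGraph V, F.Free G' → triangles G' ≤ triangles G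

/-- `G` is extremal for `ex(n, K₃, F)` and is the only extremal graph up to isomorphism. -/
def IsUniqueExtremal {W V : Type} (F : SimpleGraph W) (G : SimpleGraph V) : Prop :=
  IsExtremal F G ∧ ∀ G' : SimpleGraph V, IsExtremal F G' → Nonempty (G' ≃g G)

/-- `K_s + (T₂(m) with the edge pq added)`; the parts of the balanced complete bipartite graph
`T₂(m)` on `Fin m` are the even and the odd numbers. For `p ≠ q` in the same part this is the graph
`H⁺(s + m, 2, s + 1)`. -/
def Hplus (s m : ℕ) (p q : Fin m) : SimpleGraph (Fin s ⊕ Fin m) where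
  Adj a b := match a, b with
    | .inl i, .inl j => i ≠ j
    | .inl _, .inr _ => True
    | .inr _, .inl _ => True
    | .inr u, .inr v => u.val % 2 ≠ v.val % 2 ∨ (u ≠ v ∧ s(u, v) = s(p, q))
  symm := ⟨fun a b h => by
    rcases a with a | a <;> rcases b with b | b
    · exact Ne.symm h
    · trivial
    · trivial
    · rcases h with h | ⟨h, h'⟩
      · exact Or.inl (Ne.symm h)
      · exact Or.inr ⟨Ne.symm h, by rw [← h', Sym2.eq_swap]⟩⟩
  loopless := ⟨fun a h => by
    rcases a with a | a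
    · exact h rfl
    · rcases h with h | ⟨h, _⟩
      · exact h rfl
      · exact h rfl⟩

lemma free_C {m : ℕ} {S : Finset (Fin m)} {x y : Fin m} (hxy : x ≠ y) :
    (edgeBlowup (cycleGraph 4)).Free (Gam S x y) := by
  rintro ⟨φ⟩
  have e01 : s((0 : Fin 4), 1) ∈ (cycleGraph 4).edgeSet := by
    rw [mem_edgeSet, cycleGraph_adj']; decide
  have e12 : s((1 : Fin 4), 2) ∈ (cycleGraph 4).edgeSet := by
    rw [mem_edgeSet, cycleGraph_adj']; decide
  have e23 : s((2 : Fin 4), 3) ∈ (cycleGraph 4).edgeSet := by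
    rw [mem_edgeSet, cycleGraph_adj']; decide
  have e30 : s((3 : Fin 4), 0) ∈ (cycleGraph 4).edgeSet := by
    rw [mem_edgeSet, cycleGraph_adj']; decide
  let ι : Fin 8 → Fin 4 ⊕ (cycleGraph 4).edgeSet := ![.inl 0, .inl 1, .inl 2, .inl 3,
    .inr ⟨_, e01⟩, .inr ⟨_, e12⟩, .inr ⟨_, e23⟩, .inr ⟨_, e30⟩]
  have hι : Function.Injective ι := by
    intro i j h
    fin_cases i <;> fin_cases j <;> simp [ι] at h ⊢
  have hadj : ∀ i : Fin 4, (edgeBlowup (cycleGraph 4)).Adj (ι (tC i 0)) (ι (tC i 1)) ∧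
      (edgeBlowup (cycleGraph 4)).Adj (ι (tC i 0)) (ι (tC i 2)) ∧
      (edgeBlowup (cycleGraph 4)).Adj (ι (tC i 1)) (ι (tC i 2)) := by
    intro i
    fin_cases i
    · exact ⟨e01, Sym2.mem_mk_left _ _, Sym2.mem_mk_right _ _⟩
    · exact ⟨e12, Sym2.mem_mk_left _ _, Sym2.mem_mk_right _ _⟩
    · exact ⟨e23, Sym2.mem_mk_left _ _, Sym2.mem_mk_right _ _⟩
    · exact ⟨e30, Sym2.mem_mk_left _ _, Sym2.mem_mk_right _ _⟩
  exact no_config hxy tC noC (fun k => φ (ι k)) (φ.injective.comp hι)
    (fun i => ⟨φ.toHom.map_adj (hadj i).1, φ.toHom.map_adj (hadj i).2.1,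
      φ.toHom.map_adj (hadj i).2.2⟩)

lemma free_P {m : ℕ} {S : Finset (Fin m)} {x y : Fin m} (hxy : x ≠ y) :
    (edgeBlowup (pathGraph 5)).Free (Gam S x y) := by
  rintro ⟨φ⟩
  have e01 : s((0 : Fin 5), 1) ∈ (pathGraph 5).edgeSet := by
    rw [mem_edgeSet, pathGraph_adj]; decide
  have e12 : s((1 : Fin 5), 2) ∈ (pathGraph 5).edgeSet := by
    rw [mem_edgeSet, pathGraph_adj]; decide
  have e23 : s((2 : Fin 5), 3) ∈ (pathGraph 5).edgeSet := by
    rw [mem_edgeSet, pathGraph_adj]; decide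
  have e34 : s((3 : Fin 5), 4) ∈ (pathGraph 5).edgeSet := by
    rw [mem_edgeSet, pathGraph_adj]; decide
  let ι : Fin 9 → Fin 5 ⊕ (pathGraph 5).edgeSet := ![.inl 0, .inl 1, .inl 2, .inl 3, .inl 4,
    .inr ⟨_, e01⟩, .inr ⟨_, e12⟩, .inr ⟨_, e23⟩, .inr ⟨_, e34⟩]
  have hι : Function.Injective ι := by
    intro i j h
    fin_cases i <;> fin_cases j <;> simp [ι] at h ⊢
  have hadj : ∀ i : Fin 4, (edgeBlowup (pathGraph 5)).Adj (ι (tP i 0)) (ι (tP i 1)) ∧
      (edgeBlowup (pathGraph 5)).Adj (ι (tP i 0)) (ι (tP i 2)) ∧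
      (edgeBlowup (pathGraph 5)).Adj (ι (tP i 1)) (ι (tP i 2)) := by
    intro i
    fin_cases i
    · exact ⟨e01, Sym2.mem_mk_left _ _, Sym2.mem_mk_right _ _⟩
    · exact ⟨e12, Sym2.mem_mk_left _ _, Sym2.mem_mk_right _ _⟩
    · exact ⟨e23, Sym2.mem_mk_left _ _, Sym2.mem_mk_right _ _⟩
    · exact ⟨e34, Sym2.mem_mk_left _ _, Sym2.mem_mk_right _ _⟩
  exact no_config hxy tP noP (fun k => φ (ι k)) (φ.injective.comp hι)
    (fun i => ⟨φ.toHom.map_adj (hadj i).1, φ.toHom.map_adj (hadj i).2.1,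
      φ.toHom.map_adj (hadj i).2.2⟩)

/-- the class of `p` modulo two -/
def cls {m : ℕ} (p : Fin m) : Finset (Fin m) := Finset.univ.filter (fun u => u.val % 2 = p.val % 2)

lemma Hplus_eq {m : ℕ} (p q : Fin m) :
    Hplus 1 m p q = Gam (cls p) p q := by
  ext a b
  rcases a with a | a <;> rcases b with b | b
  · show a ≠ b ↔ False
    simp [Subsingleton.elim a b]
  · exact Iff.rfl
  · exact Iff.rfl
  · show (a.val % 2 ≠ b.val % 2 ∨ (a ≠ b ∧ s(a, b) = s(p, q))) ↔ a ≠ b ∧ _
    have h1 : ∀ u : Fin m, u ∈ cls p ↔ u.val % 2 = p.val % 2 := fun u => by simp [cls]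
    rw [h1, h1, Sym2.eq_iff]
    constructor
    · rintro (h | ⟨h, h'⟩)
      · refine ⟨fun hab => h (by rw [hab]), ?_⟩
        by_cases h2 : a.val % 2 = p.val % 2
        · exact Or.inl ⟨h2, fun h3 => h (h2.trans h3.symm)⟩
        · refine Or.inr (Or.inl ⟨h2, ?_⟩)
          omega
      · exact ⟨h, Or.inr (Or.inr h')⟩
    · rintro ⟨h, h2 | h2 | h2 | h2⟩
      · exact Or.inl (fun h3 => h2.2 (h3.symm.trans h2.1))
      · exact Or.inl (fun h3 => h2.1 (h3.trans h2.2))
      · exact Or.inr ⟨h, Or.inl h2⟩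
      · exact Or.inr ⟨h, Or.inr h2⟩

lemma card_par (r c : ℕ) (hc : c < 2) :
    (Finset.univ.filter (fun u : Fin (2 * r) => u.val % 2 = c)).card = r := by
  have h1 : (Finset.univ.filter (fun u : Fin (2 * r) => u.val % 2 = c)) =
      Finset.univ.image (fun i : Fin r => (⟨2 * i.val + c, by omega⟩ : Fin (2 * r))) := by
    ext u
    rw [Finset.mem_filter, Finset.mem_image]
    constructor
    · rintro ⟨_, h⟩
      exact ⟨⟨u.val / 2, by omega⟩, Finset.mem_univ _, by ext; simp only; omega⟩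
    · rintro ⟨i, _, rfl⟩
      exact ⟨Finset.mem_univ _, by simp only; omega⟩
  rw [h1, Finset.card_image_of_injective, Finset.card_univ, Fintype.card_fin]
  intro i j h
  rw [Fin.mk.injEq] at h
  ext
  omega

lemma card_cls {r : ℕ} (p : Fin (2 * r)) : (cls p).card = r := card_par r _ (by omega)

/-- the smaller part of the second graph -/
def T (r : ℕ) : Finset (Fin (2 * r)) :=
  Finset.univ.filter (fun u => u.val % 2 = 0 ∧ u.val ≠ 0)

lemma card_T {r : ℕ} (hr : 0 < r) : (T r).card = r - 1 := by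
  have h1 : T r = (Finset.univ.filter (fun u : Fin (2 * r) => u.val % 2 = 0)).erase
      ⟨0, by omega⟩ := by
    ext u
    simp only [T, Finset.mem_filter, Finset.mem_univ, true_and, Finset.mem_erase, ne_eq,
      Fin.ext_iff]
    tauto
  rw [h1, Finset.card_erase_of_mem, card_par r 0 (by omega)]
  simp

/-- All vertices of the first graph have degree at least `r + 1`. -/
lemma degree_ge {r : ℕ} (hr : 1 ≤ r) (p q : Fin (2 * r)) (v : Fin 1 ⊕ Fin (2 * r)) :
    r + 1 ≤ ((Gam (cls p) p q).neighborSet v).ncard := by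
  classical
  rcases v with v | v
  · have h1 : (Finset.univ.image (Sum.inr : Fin (2 * r) → Fin 1 ⊕ Fin (2 * r)) :
        Set (Fin 1 ⊕ Fin (2 * r))) ⊆ (Gam (cls p) p q).neighborSet (Sum.inl v) := by
      intro w hw
      rw [Finset.mem_coe, Finset.mem_image] at hw
      obtain ⟨u, _, rfl⟩ := hw
      exact adj_lr (S := cls p) (x := p) (y := q) v u
    have h2 := Set.ncard_le_ncard h1 (Set.toFinite _)
    rw [Set.ncard_coe_finset, Finset.card_image_of_injective _ Sum.inr_injective,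
      Finset.card_univ, Fintype.card_fin] at h2
    omega
  · have key : ∀ A : Finset (Fin (2 * r)), A.card = r → (∀ u ∈ A, (Gam (cls p) p q).Adj
        (Sum.inr v) (Sum.inr u)) → r + 1 ≤ ((Gam (cls p) p q).neighborSet (Sum.inr v)).ncard := by
      intro A hA hadj
      have h1 : ((insert (Sum.inl 0) (A.image (Sum.inr : Fin (2 * r) → Fin 1 ⊕ Fin (2 * r))) :
          Finset (Fin 1 ⊕ Fin (2 * r))) : Set (Fin 1 ⊕ Fin (2 * r))) ⊆
          (Gam (cls p) p q).neighborSet (Sum.inr v) := by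
        intro w hw
        rw [Finset.mem_coe, Finset.mem_insert, Finset.mem_image] at hw
        rcases hw with rfl | ⟨u, hu, rfl⟩
        · exact adj_rl (S := cls p) (x := p) (y := q) 0 v
        · exact hadj u hu
      have h2 := Set.ncard_le_ncard h1 (Set.toFinite _)
      rw [Set.ncard_coe_finset, Finset.card_insert_of_notMem (by simp),
        Finset.card_image_of_injective _ Sum.inr_injective, hA] at h2
      exact h2
    have hcc : (cls p)ᶜ.card = r := by
      rw [Finset.card_compl, card_cls, Fintype.card_fin]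
      omega
    by_cases hv : v ∈ cls p
    · refine key _ hcc fun u hu => ?_
      rw [Finset.mem_compl] at hu
      rw [adj_rr]
      exact ⟨fun h => hu (h ▸ hv), Or.inl ⟨hv, hu⟩⟩
    · refine key _ (card_cls p) fun u hu => ?_
      rw [adj_rr]
      exact ⟨fun h => hv (h ▸ hu), Or.inr (Or.inl ⟨hv, hu⟩)⟩

/-- The second graph has a vertex of degree `r`. -/
lemma degree_eq {r : ℕ} (hr : 0 < r) (x y : Fin (2 * r)) (hx : x ∈ T r) (hy : y ∈ T r) :
    ((Gam (T r) x y).neighborSet (Sum.inr ⟨0, by omega⟩)).ncard ≤ r := by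
  classical
  have h0 : (⟨0, by omega⟩ : Fin (2 * r)) ∉ T r := by simp [T]
  have h1 : (Gam (T r) x y).neighborSet (Sum.inr ⟨0, by omega⟩) ⊆
      ((insert (Sum.inl 0) ((T r).image (Sum.inr : Fin (2 * r) → Fin 1 ⊕ Fin (2 * r))) :
      Finset (Fin 1 ⊕ Fin (2 * r))) : Set (Fin 1 ⊕ Fin (2 * r))) := by
    intro w hw
    rw [Finset.mem_coe, Finset.mem_insert, Finset.mem_image]
    rcases w with w | w
    · left; rw [Subsingleton.elim w 0]
    · right
      refine ⟨w, ?_, rfl⟩
      rw [mem_neighborSet, adj_rr] at hw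
      rcases hw.2 with h | h | h | h
      · exact absurd h.1 h0
      · exact h.2
      · exact absurd (h.1 ▸ hx) h0
      · exact absurd (h.1 ▸ hy) h0
  have h2 := Set.ncard_le_ncard h1 (Set.toFinite _)
  rw [Set.ncard_coe_finset] at h2
  have h3 := Finset.card_insert_le (Sum.inl (0 : Fin 1))
    ((T r).image (Sum.inr : Fin (2 * r) → Fin 1 ⊕ Fin (2 * r)))
  have h4 : ((T r).image (Sum.inr : Fin (2 * r) → Fin 1 ⊕ Fin (2 * r))).card ≤ (T r).card :=
    Finset.card_image_le
  rw [card_T hr] at h4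
  omega

lemma not_unique {W : Type} (F : SimpleGraph W) {r : ℕ} (hr : 3 ≤ r)
    (hF : ∀ (S : Finset (Fin (2 * r))) (x y : Fin (2 * r)), x ≠ y → F.Free (Gam S x y))
    (p q : Fin (2 * r)) (hpq : p ≠ q) (hpar : p.val % 2 = q.val % 2) :
    ¬ IsUniqueExtremal F (Hplus 1 (2 * r) p q) := by
  rintro ⟨⟨hfree, hmax⟩, huniq⟩
  rw [Hplus_eq] at hmax huniq
  let x : Fin (2 * r) := ⟨2, by omega⟩
  let y : Fin (2 * r) := ⟨4, by omega⟩
  have hx : x ∈ T r := by simp [T, x]
  have hy : y ∈ T r := by simp [T, y]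
  have hxy : x ≠ y := by
    intro h
    have := congrArg Fin.val h
    simp [x, y] at this
  have hp : p ∈ cls p := by simp [cls]
  have hq : q ∈ cls p := by simp [cls, hpar]
  have ht1 : triangles (Gam (cls p) p q) = r * r + 1 + r := by
    unfold triangles
    rw [tri_card hp hq hpq, Finset.card_compl, card_cls, Fintype.card_fin,
      show 2 * r - r = r by omega]
  have ht2 : triangles (Gam (T r) x y) = r * r + 1 + r := by
    unfold triangles
    rw [tri_card hx hy hxy, Finset.card_compl, card_T (by omega), Fintype.card_fin,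
      show 2 * r - (r - 1) = r + 1 by omega]
    obtain ⟨s, rfl⟩ : ∃ s, r = s + 1 := ⟨r - 1, by omega⟩
    rw [Nat.add_sub_cancel]
    ring
  obtain ⟨ψ⟩ := huniq (Gam (T r) x y) ⟨hF _ _ _ hxy, fun G' hG' => by
    rw [ht2, ← ht1]
    exact hmax G' hG'⟩
  -- compare degrees
  have h1 := degree_eq (by omega) x y hx hy
  have h2 := degree_ge (r := r) (by omega) p q (ψ (Sum.inr ⟨0, by omega⟩))
  have h3 : ((Gam (cls p) p q).neighborSet (ψ (Sum.inr ⟨0, by omega⟩))).ncard =
      ((Gam (T r) x y).neighborSet (Sum.inr ⟨0, by omega⟩)).ncard := by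
    have : (Gam (cls p) p q).neighborSet (ψ (Sum.inr ⟨0, by omega⟩)) =
        ψ '' ((Gam (T r) x y).neighborSet (Sum.inr ⟨0, by omega⟩)) := by
      ext w
      constructor
      · intro hw
        refine ⟨ψ.symm w, ?_, ψ.apply_symm_apply w⟩
        rw [mem_neighborSet] at hw ⊢
        rw [← ψ.map_adj_iff, ψ.apply_symm_apply]
        exact hw
      · rintro ⟨z, hz, rfl⟩
        rw [mem_neighborSet] at hz ⊢
        exact ψ.map_adj_iff.2 hz
    rw [this, Set.ncard_image_of_injective _ ψ.injective]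
  omega

/-- The number `t_k` of the conjecture. -/
def tk (k : ℕ) : ℕ := (k - 1) / 2 + 1

/-- **The conjectured uniqueness fails for `k = 4`.** Let `r ≥ 3` and `n = 2 r + 1`. For `k = 4` the
graph `H⁺(n, 2, t_k)` of the conjecture is `Hplus 1 (2 r) p q`, where `p ≠ q` are in the same part
of `T₂(n - t_k + 1) = T₂(2 r)`; whichever such `p`, `q` are chosen, it is not the unique extremal
graph for `ex(n, K₃, C_k³)`, and it is not the unique extremal graph for `ex(n, K₃, P_k³)`. -/
theorem result : tk 4 = 1 + 1 ∧ ∀ r : ℕ, 3 ≤ r →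
    (2 * r + 1) - tk 4 + 1 = 2 * r ∧
    ∀ p q : Fin (2 * r), p ≠ q → p.val % 2 = q.val % 2 →
      ¬ IsUniqueExtremal (edgeBlowup (cycleGraph 4)) (Hplus 1 (2 * r) p q) ∧
      ¬ IsUniqueExtremal (edgeBlowup (pathGraph 5)) (Hplus 1 (2 * r) p q) := by
  refine ⟨rfl, fun r hr => ⟨?_, fun p q hpq hpar => ⟨?_, ?_⟩⟩⟩
  · show 2 * r + 1 - 2 + 1 = 2 * r
    omega
  · exact not_unique _ hr (fun S x y hxy => free_C hxy) p q hpq hpar
  · exact not_unique _ hr (fun S x y hxy => free_P hxy) p q hpq hpar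

end Pool.Agent.Results.MP_5b3c48_co.NotUnique
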